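import Pool.Agent.H121.UE.Iface

/-!
# Project UE: the iteration lemma (task UE-ITR, by helper328)
-/

set_option autoImplicit false

open scoped BigOperators Topology ENNReal
open Filter MeasureTheory

namespace Pool.Agent.H328.UE

open Pool.Agent.H121.UE

theorem itr_core (ι : Type) (F S W : ι → ι → ℝ≥0∞) (ρ : ι → ℝ≥0∞) (C s0 r : ℝ≥0∞)
    (hC : C ≠ ∞) (hr : r < 1) (h1 : ∀ x, 1 ≤ ρ x) (hρ : ∀ x, ρ x ≠ ∞) (hF : ∀ x y, F x y ≤ C)
    (hS : ∀ x, ∑' y, S x y * ρ y ≤ s0 * ρ x) (hW : ∀ x, ∑' v, W x v * ρ v ≤ r * ρ x)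
    (h : ∀ x y, F x y ≤ S x y + ∑' v, W x v * F v y) (x : ι) :
    ∑' y, F x y * ρ y ≤ s0 * (1 - r)⁻¹ * ρ x := by
  have hρ0 : ∀ x, ρ x ≠ 0 := fun x => (lt_of_lt_of_le one_pos (h1 x)).ne'
  rw [ENNReal.tsum_eq_iSup_sum]
  refine iSup_le fun Y => ?_
  set H : ι → ℝ≥0∞ := fun x => ∑ y ∈ Y, F x y * ρ y with hH
  set a : ℝ≥0∞ := ⨆ x, H x / ρ x with ha
  have hHa : ∀ x, H x ≤ a * ρ x := fun x =>
    (ENNReal.div_le_iff (hρ0 x) (hρ x)).1 (le_iSup (fun x => H x / ρ x) x)
  have haK : a ≤ C * ∑ y ∈ Y, ρ y := by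
    refine iSup_le fun x => ?_
    rw [ENNReal.div_le_iff (hρ0 x) (hρ x)]
    calc H x ≤ C * ∑ y ∈ Y, ρ y := by
          rw [hH, Finset.mul_sum]
          exact Finset.sum_le_sum fun y _ => mul_le_mul_left (hF x y) _
      _ ≤ C * ∑ y ∈ Y, ρ y * ρ x := by
          apply mul_le_mul_right
          exact Finset.sum_le_sum fun y _ => le_mul_of_one_le_right (zero_le) (h1 x)
      _ = _ := by rw [← Finset.sum_mul, mul_assoc]
  have haT : a ≠ ∞ := by
    refine ne_top_of_le_ne_top ?_ haK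
    exact ENNReal.mul_ne_top hC (ENNReal.sum_ne_top.2 fun y _ => hρ y)
  have hHx : ∀ x, H x ≤ (s0 + a * r) * ρ x := by
    intro x
    calc H x ≤ ∑ y ∈ Y, (S x y + ∑' v, W x v * F v y) * ρ y :=
          Finset.sum_le_sum fun y _ => mul_le_mul_left (h x y) _
      _ = ∑ y ∈ Y, S x y * ρ y + ∑' v, W x v * H v := by
          simp only [add_mul]
          rw [Finset.sum_add_distrib]
          congr 1
          rw [hH]
          simp only [Finset.mul_sum, ← ENNReal.tsum_mul_right]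
          rw [← Summable.tsum_finsetSum (fun _ _ => ENNReal.summable)]
          refine tsum_congr fun v => Finset.sum_congr rfl fun y _ => ?_
          rw [mul_assoc]
      _ ≤ s0 * ρ x + ∑' v, W x v * (a * ρ v) := by
          apply add_le_add
          · exact (ENNReal.sum_le_tsum Y).trans (hS x)
          · exact ENNReal.tsum_le_tsum fun v => mul_le_mul_right (hHa v) _
      _ = s0 * ρ x + a * ∑' v, W x v * ρ v := by
          congr 1
          rw [← ENNReal.tsum_mul_left]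
          exact tsum_congr fun v => by ring
      _ ≤ s0 * ρ x + a * (r * ρ x) := add_le_add le_rfl (mul_le_mul_right (hW x) _)
      _ = _ := by ring
  have ha1 : a ≤ s0 + a * r := by
    refine iSup_le fun x => ?_
    rw [ENNReal.div_le_iff (hρ0 x) (hρ x)]
    exact hHx x
  have h1r : 1 - r ≠ 0 := (tsub_pos_of_lt hr).ne'
  have h1r' : 1 - r ≠ ∞ := ne_top_of_le_ne_top ENNReal.one_ne_top tsub_le_self
  have ha2 : a * (1 - r) ≤ s0 := by
    rw [ENNReal.mul_sub (fun _ _ => haT), mul_one]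
    exact tsub_le_iff_right.2 ha1
  have ha3 : a ≤ s0 * (1 - r)⁻¹ := by
    rw [← div_eq_mul_inv]
    exact (ENNReal.le_div_iff_mul_le (Or.inl h1r) (Or.inl h1r')).2 ha2
  exact (hHa x).trans (mul_le_mul_left ha3 _)

theorem itr : S_itr := fun ι F S W ρ C s0 r hC _ hr h1 hρ hF hS hW h x =>
  itr_core ι F S W ρ C s0 r hC hr h1 hρ hF hS hW h x

end Pool.Agent.H328.UE
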